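import Pool.Agent.Y110.BP.Defs

/-!
# Products of zero-cycles with the zero-cycles of degree zero on an irregular variety: definitions
-/

open CategoryTheory AlgebraicGeometry

universe u v w

namespace Pool.Agent.Y111.BC

open Pool.Agent.H914 Pool.Agent.H914.VarClass Pool.Agent.H914.VarClass.Obj Pool.Agent.W492.BB
  Pool.Agent.W550.Corr Pool.Agent.TH133 Pool.Agent.Y152.AS

variable {k : Type u} [Field k] {𝒱 : VarClass k} (C : TheoryData.{u, v, 0} 𝒱 ℚ)

/-- The zero-cycle `z` on `X` has degree `q`: for all varieties `Y` the push-forward of `z × Y` to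
`Y` is `q`. -/
def DegreeIs {X : 𝒱.Obj} (z : C.A X) (q : ℚ) : Prop :=
  ∀ Y : 𝒱.Obj, C.down (snd X Y) (C.up (fst X Y) z) = q • (1 : C.A Y)

/-- `E` is a divisor class on `T × T`, `T` a curve, with degrees `d₁` and `d₂` over the factors and
with self-intersection number `m ≠ 2 d₁ d₂`. By the inequality of Castelnuovo and Severi
(`m ≤ 2 d₁ d₂` for all divisors) this means that the correspondence `E` acts non-trivially on the
Jacobian of `T`. -/
def IsNontrivialCorrespondence {T : 𝒱.Obj} (E : C.A (T.prod T)) : Prop :=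
  T.dim = 1 ∧ C.Deg 1 E ∧ ∃ d₁ d₂ m : ℚ, C.down (snd T T) E = d₁ • (1 : C.A T) ∧
    C.down (fst T T) E = d₂ • (1 : C.A T) ∧ DegreeIs C (C.mul E E) m ∧ m ≠ 2 * d₁ * d₂

/-- The variety `Y` is irregular (its Albanese variety is not zero): there are a curve `f : T ⟶ Y`
and a divisor class `D` on `Y × T` such that the correspondence `(f × id)^* D` from `T` to `T` is
non-trivial, so that the composition `J(T) ⟶ Alb(Y) ⟶ J(T)` is not zero. -/
def IsIrregular (Y : 𝒱.Obj) : Prop :=
  ∃ (T : 𝒱.Obj) (f : T ⟶ Y) (D : C.A (Y.prod T)), C.Deg 1 D ∧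
    IsNontrivialCorrespondence C (C.up (prodMap f (𝟙 T)) D)

/-- The zero-cycle `t` on `X` is killed by the zero-cycles of degree zero on `Y`: the external
products `t × b` are zero in `CH_0(X × Y)_ℚ`. -/
def KilledBy {X : 𝒱.Obj} (t : C.A X) (Y : 𝒱.Obj) : Prop :=
  ∀ b : C.A Y, C.Deg Y.dim b → DegreeIs C b 0 → C.ext t b = 0

/-- The zero-cycles `t × b` on `X × Y`, where `t` is in the Albanese kernel of `X` and `b` is a
zero-cycle of degree zero on `Y`, are supported on one closed subset of dimension at most one: on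
the images of finitely many varieties `U j ⟶ X × Y` of dimension at most one. -/
def ProductsOnCurves (X Y : 𝒱.Obj) : Prop :=
  ∃ (m : ℕ) (U : Fin m → 𝒱.Obj) (f : ∀ j, U j ⟶ X.prod Y), (∀ j, (U j).dim ≤ 1) ∧
    ∀ (t : C.A X) (b : C.A Y), InAlbKer C t → C.Deg Y.dim b → DegreeIs C b 0 →
      C.ext t b ∈ Pool.Agent.Y110.BP.zeroSupp C U f

end Pool.Agent.Y111.BC
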