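import Pool.Agent.Y111.BC.Ops
import Pool.Agent.Y111.BC.Defs

/-!
# Bloch's conjecture for a surface with `p_g = 0` and zero-cycles on its products
-/

open CategoryTheory AlgebraicGeometry

universe u v w

namespace Pool.Agent.Y111.BC

open Pool.Agent.H914 Pool.Agent.H914.VarClass Pool.Agent.H914.VarClass.Obj Pool.Agent.W492.BB
  Pool.Agent.W550.Corr Pool.Agent.TH133 Pool.Agent.Y152.AS Pool.Agent.Y110.BP

set_option linter.unusedSectionVars false
set_option linter.unusedVariables false

variable {k : Type u} [Field k] {𝒱 : VarClass k} {C : TheoryData.{u, v, 0} 𝒱 ℚ}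
  [hC : IsChowProj C] {X Y Z W S T : 𝒱.Obj}

include hC

/-- A zero-cycle has the degree of its push-forward. -/
lemma hasDegree_of_push (f : X ⟶ Y) {z : C.A X} (hz : C.Deg X.dim z) {q : ℚ}
    (hq : HasDegree C (C.push f z) q) : HasDegree C z q := by
  obtain ⟨r, hr⟩ := exists_hasDegree (C := C) hz
  have h1 := hasDegree_push f hr
  intro Z
  have h2 : r • (1 : C.A Z) = q • 1 := (h1 Z).1.symm.trans (hq Z).1
  rw [(hr Z).1, (hr Z).2, h2]
  exact ⟨rfl, rfl⟩

lemma degreeIs_of {z : C.A X} {q : ℚ} (h : HasDegree C z q) : DegreeIs C z q := fun Y => (h Y).1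

lemma hasDegree_of {z : C.A X} (hz : C.Deg X.dim z) {q : ℚ} (h : DegreeIs C z q) :
    HasDegree C z q := by
  obtain ⟨r, hr⟩ := exists_hasDegree (C := C) hz
  intro Z
  have h2 : r • (1 : C.A Z) = q • 1 := (hr Z).1.symm.trans (h Z)
  rw [(hr Z).1, (hr Z).2, h2]
  exact ⟨rfl, rfl⟩

/-- the correspondence `E - T × E(p)` -/
noncomputable def red (E : C.A (T.prod T)) (p : C.A T) : C.A (T.prod T) :=
  E - C.ext 1 (C.act E p)

lemma act_mem1 (hT : T.dim = 1) {E : C.A (T.prod T)} (hE : C.Deg 1 E) {p : C.A T}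
    (hp : C.Deg 1 p) : C.Deg 1 (C.act E p) := by
  have := act_mem' C (e := 0) (Γ := E) (x := p) (i := 1) (by rw [hT]; exact_mod_cast hE) hp
  rwa [add_zero] at this

lemma red_mem (hT : T.dim = 1) {E : C.A (T.prod T)} (hE : C.Deg 1 E) {p : C.A T}
    (hp : C.Deg 1 p) : red E p ∈ C.gr (T.prod T) 1 := by
  have h3 := ext_mem' (C := C) (C.one_mem T) (act_mem1 hT hE hp)
  rw [zero_add] at h3
  exact Submodule.sub_mem _ hE h3

/-- the action of the reduced correspondence on zero-cycles -/
lemma act_red {E : C.A (T.prod T)} {p c : C.A T} {q : ℚ} (hq : HasDegree C c q) :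
    C.act (red E p) c = C.act E (c - q • p) := by
  have h2 : C.act (C.ext (1 : C.A T) (C.act E p)) c = q • C.act E p :=
    act_ext' (by rw [one_mul]; exact hq)
  rw [red, C.act_sub, h2, act_map_sub, act_map_smul]

/-- the self-intersection number of the reduced correspondence -/
lemma red_sq (hT : T.dim = 1) {E : C.A (T.prod T)} (hE : C.Deg 1 E) {p : C.A T}
    (hp : C.Deg 1 p) (hp1 : HasDegree C p 1) {d₁ d₂ m : ℚ}
    (h1 : C.down (snd T T) E = d₁ • (1 : C.A T)) (h2 : C.down (fst T T) E = d₂ • (1 : C.A T))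
    (hm : HasDegree C (C.mul E E) m) : HasDegree C (red E p * red E p) (m - 2 * d₁ * d₂) := by
  have hb := act_mem1 hT hE hp
  have hdim : ((T.prod T).dim : ℤ) = 1 + 1 := by rw [dim_prod, hT]; norm_num
  have h3 : HasDegree C (C.act E p) d₂ := by
    rw [TheoryData.act_apply]
    refine hasDegree_push _ (hasDegree_of_push (fst T T) ?_ ?_)
    · rw [hdim]
      exact C.mul_mem hE (C.pull_mem _ hp)
    · have h4 : C.push (fst T T) E = d₂ • (1 : C.A T) := h2
      rw [C.proj_right, h4, smul_mul_assoc, one_mul]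
      have := hasDegree_smul d₂ hp1
      rwa [mul_one] at this
  have h5 : HasDegree C (E * C.pull (snd T T) (C.act E p)) (d₁ * d₂) := by
    refine hasDegree_of_push (snd T T) ?_ ?_
    · rw [hdim]
      exact C.mul_mem hE (C.pull_mem _ hb)
    · have h4 : C.push (snd T T) E = d₁ • (1 : C.A T) := h1
      rw [C.proj_right, h4, smul_mul_assoc, one_mul]
      exact hasDegree_smul d₁ h3
  have h6 : C.pull (snd T T) (C.act E p) * C.pull (snd T T) (C.act E p) = 0 := by
    rw [← map_mul]
    have h7 : C.act E p * C.act E p = 0 := by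
      refine hC.gr_top T 2 _ ?_ (by rw [hT]; norm_num)
      have := C.mul_mem hb hb
      rwa [show (1 : ℤ) + 1 = 2 by norm_num] at this
    rw [h7, map_zero]
  have h7 : C.ext (1 : C.A T) (C.act E p) = C.pull (snd T T) (C.act E p) := by
    rw [TheoryData.ext, map_one, one_mul]
  have h8 : red E p * red E p = E * E - (2 : ℚ) • (E * C.pull (snd T T) (C.act E p)) := by
    rw [red, h7]
    have e : ∀ d a : C.A (T.prod T), a * a = 0 →
        (d - a) * (d - a) = d * d - (2 : ℚ) • (d * a) := by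
      intro d a ha
      rw [two_smul]
      have c1 : a * d = d * a := ch_comm C a d
      simp only [sub_mul, mul_sub, ha, c1]
      abel
    exact e _ _ h6
  rw [h8]
  have h9 := hasDegree_sub hm (hasDegree_smul 2 h5)
  have e : m - 2 * (d₁ * d₂) = m - 2 * d₁ * d₂ := by ring
  rwa [e] at h9

/-- the contraction of classes over points of the curve -/
lemma ctr_push (π : C.A (T.prod T)) (g : W ⟶ T) (γ : C.A (W.prod (X.prod T))) (hW : W.dim = 0) :
    ∃ (c : ℚ) (δ : C.A (X.prod T)), ctr π (C.push (prodMap g (𝟙 (X.prod T))) γ) =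
      c • C.act (tp C δ) (C.act π (C.push g 1)) := by
  obtain ⟨c, hc⟩ := zero_dim hW (C := C)
  refine ⟨c, C.push (snd W (X.prod T)) γ, ?_⟩
  have e1 : prodMap g (𝟙 (X.prod T)) ≫ u13 T X T = u13 W X T ≫ prodMap g (𝟙 T) := by
    apply prod_ext <;> simp [u13]
  have e2 : prodMap g (𝟙 (X.prod T)) ≫ snd T (X.prod T) ≫ fst X T =
      snd W (X.prod T) ≫ fst X T := by
    simp
  have e3 : C.push (snd W T) (C.pull (prodMap g (𝟙 T)) π) =
      C.act π (C.push g 1) := by
    rw [TheoryData.act_apply, C.base_fst, map_one, ← C.proj_left, ← C.push_comp, prodMap_snd,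
      Category.comp_id, mul_one]
  have e4 : u13 W X T ≫ snd W T = snd W (X.prod T) ≫ snd X T := u13_snd
  rw [ctr_apply, ← C.proj_right, ← C.push_comp, ← C.pull_comp, e1, e2, C.pull_comp,
    hc T (C.pull (prodMap g (𝟙 T)) π), e3, map_smul, ← C.pull_comp, e4, C.pull_comp,
    mul_smul_comm, map_smul, C.push_comp, C.proj_right, act_tp]

/-- the classes on `X` whose product with `s` is zero -/
noncomputable def annih (X : 𝒱.Obj) (s : C.A S) : Submodule ℚ (C.A X) where
  carrier := {t | C.ext t s = 0}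
  add_mem' := by
    intro a b ha hb
    change C.ext (a + b) s = 0
    rw [ext_add_left, ha, hb, add_zero]
  zero_mem' := C.ext_zero_left s
  smul_mem' := by
    intro q a ha
    change C.ext (q • a) s = 0
    rw [TheoryData.ext, map_smul, smul_mul_assoc]
    change q • C.ext a s = 0
    rw [ha, smul_zero]

lemma ext_comm_zero {t : C.A X} {b : C.A Y} (h : C.ext t b = 0) : C.ext b t = 0 := by
  rw [← tp_ext, h, tp_zero]

/-- The main step for one correspondence `π` of a curve `T`. -/
theorem ext_eq_zero_curve (hBS : BlochSrinivas C) (hT : T.dim = 1) {π : C.A (T.prod T)}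
    (hπ : C.Deg 1 π) {d : ℚ} (hd : HasDegree C (π * π) d) (hd0 : d ≠ 0) {t : C.A X}
    (ht : C.Deg X.dim t) {s : C.A S}
    (h1 : ∀ c : C.A T, C.Deg 1 c → C.ext t (C.act π c) = 0)
    (h2 : ∀ c : C.A T, C.Deg 1 c → C.ext s (C.act π c) = 0) : C.ext t s = 0 := by
  have h3 : pr t π ∈ overDivisors C T (X.prod T) ⊔
      overFamily C T (Fin.elim0 : Fin 0 → 𝒱.Obj) (fun j => (j.elim0 : _ ⟶ X.prod T)) := by
    refine hBS T (X.prod T) (pr t π) 0 _ _ ?_ ?_
    · have := pr_mem ht hπ
      rw [dim_prod, hT]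
      exact_mod_cast this
    · intro c hc
      rw [hT] at hc
      rw [act_pr, h1 c (by exact_mod_cast hc)]
      exact Submodule.zero_mem _
  have h5 : (overDivisors C T (X.prod T) ⊔
      overFamily C T (Fin.elim0 : Fin 0 → 𝒱.Obj) (fun j => (j.elim0 : _ ⟶ X.prod T))) ≤
      (annih X s).comap (ctr π) := by
    refine sup_le ?_ ?_
    · rw [overDivisors, Submodule.span_le]
      rintro _ ⟨W, f, γ, hW, -, rfl⟩
      have hW0 : W.dim = 0 := by omega
      obtain ⟨c, δ, h6⟩ := ctr_push π f γ hW0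
      change C.ext (ctr π (C.push (prodMap f (𝟙 (X.prod T))) γ)) s = 0
      rw [h6]
      have h7 : C.Deg 1 (C.push f 1) := by
        have := C.push_mem f (C.one_mem W)
        rw [hW0, hT] at this
        exact_mod_cast this
      have h9 := ext_comm_zero (h2 _ h7)
      have h10 := C.extL_ext (tp C δ) (C.act π (C.push f 1)) s
      rw [h9] at h10
      have h11 : C.extL (tp C δ) S (0 : C.A (T.prod S)) = 0 := map_zero (C.extLL (tp C δ) S)
      rw [h11] at h10
      exact Submodule.smul_mem (annih X s) c h10.symm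
    · rw [overFamily, Submodule.span_le]
      rintro _ ⟨j, -⟩
      exact j.elim0
  have h6 : C.ext (ctr π (pr t π)) s = 0 := h5 h3
  rw [ctr_pr t π hd] at h6
  have h8 : C.ext (d • t) s = d • C.ext t s := by
    rw [TheoryData.ext, map_smul, smul_mul_assoc]
    rfl
  rw [h8] at h6
  exact (smul_eq_zero.mp h6).resolve_left hd0

/-- If `t` and `s` are killed by the zero-cycles of degree zero on an irregular variety, then
`t × s = 0`. -/
theorem ext_eq_zero (hBS : BlochSrinivas C) (hY : IsIrregular C Y) {t : C.A X}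
    (ht : C.Deg X.dim t) {s : C.A S} (h1 : KilledBy C t Y) (h2 : KilledBy C s Y) :
    C.ext t s = 0 := by
  obtain ⟨T, f, D, hD, hT, hE, d₁, d₂, m, hd1, hd2, hm', hne⟩ := hY
  have hm := hasDegree_of (C := C) (by
    have hdim : ((T.prod T).dim : ℤ) = 1 + 1 := by rw [dim_prod, hT]; norm_num
    change _ ∈ C.gr _ _
    rw [hdim]
    exact C.mul_mem hE hE) hm'
  obtain ⟨p, hp, hp1⟩ := hC.toIsChow.exists_deg_one T
  have hp' : C.Deg 1 p := by
    rw [hT] at hp
    exact_mod_cast hp
  have hpd : HasDegree C p 1 := by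
    intro Z
    rw [one_smul]
    exact ⟨hp1.2 Z, hp1.1 Z⟩
  have key : ∀ {Q : 𝒱.Obj} (r : C.A Q), KilledBy C r Y → ∀ c : C.A T, C.Deg 1 c →
      C.ext r (C.act (red (C.up (prodMap f (𝟙 T)) D) p) c) = 0 := by
    intro Q r hr c hc
    obtain ⟨q, hq⟩ := exists_hasDegree (C := C) (x := c) (by
      rw [hT]
      exact_mod_cast hc)
    rw [act_red hq]
    have h3 : HasDegree C (c - q • p) 0 := by
      have := hasDegree_sub hq (hasDegree_smul q hpd)
      rwa [mul_one, sub_self] at this
    have h4 : C.Deg 1 (c - q • p) := Submodule.sub_mem _ hc (Submodule.smul_mem _ _ hp')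
    have h5 : C.act (C.up (prodMap f (𝟙 T)) D) (c - q • p) =
        C.act D (C.push f (c - q • p)) := by
      rw [TheoryData.act_apply, TheoryData.act_apply, C.base_fst, ← C.proj_left, ← C.push_comp,
        prodMap_snd, Category.comp_id]
    have h6 : C.ext r (C.push f (c - q • p)) = 0 := by
      refine hr _ ?_ (degreeIs_of (hasDegree_push f h3))
      have := C.push_mem f h4
      rw [hT] at this
      refine deg_cast ?_ this
      push_cast
      ring
    rw [h5]
    have h7 := C.extL_ext D (C.push f (c - q • p)) r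
    rw [ext_comm_zero h6] at h7
    have h8 : C.extL D Q (0 : C.A (Y.prod Q)) = 0 := map_zero (C.extLL D Q)
    rw [h8] at h7
    exact ext_comm_zero h7.symm
  exact ext_eq_zero_curve hBS hT (red_mem hT hE hp') (red_sq hT hE hp' hpd hd1 hd2 hm)
    (sub_ne_zero.mpr hne) ht (key t h1) (key s h2)

/-- The diagonal of a curve of positive genus is a non-trivial correspondence. -/
lemma irregular_of_genus (hY : Y.dim = 1) {g : ℕ} (hg : 1 ≤ g)
    (hd : DegreeIs C (C.mul (C.graph (𝟙 Y)) (C.graph (𝟙 Y))) (2 - 2 * (g : ℚ))) :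
    IsIrregular C Y := by
  have e : prodMap (𝟙 Y) (𝟙 Y) = 𝟙 (Y.prod Y) := by
    apply prod_ext <;> simp
  have h1 : C.Deg 1 (C.graph (𝟙 Y)) := by
    have := dg_mem C Y
    rw [hY] at this
    exact_mod_cast this
  refine ⟨Y, 𝟙 Y, C.graph (𝟙 Y), h1, hY, ?_⟩
  have h2 : C.up (prodMap (𝟙 Y) (𝟙 Y)) (C.graph (𝟙 Y)) = C.graph (𝟙 Y) := by
    rw [e]
    exact C.pull_id _
  rw [h2]
  refine ⟨h1, 1, 1, 2 - 2 * (g : ℚ), ?_, ?_, hd, ?_⟩
  · change C.push (snd Y Y) (C.push _ 1) = _
    rw [← C.push_comp, lift_snd, C.push_id, one_smul]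
  · change C.push (fst Y Y) (C.push _ 1) = _
    rw [← C.push_comp, lift_fst, C.push_id, one_smul]
  · have : (1 : ℚ) ≤ g := by exact_mod_cast hg
    intro h
    linarith

/-- The criterion. -/
theorem main {K : Type w} [Field K] (H : WeilTheoryData.{u, v, w} C K) [IsWeilProj H]
    (hF : ClassicalFacts H) (hcurves : CurvesGenerate C) (X : 𝒱.Obj) (hX : X.dim = 2)
    (hpg : IsHomDegenerate H (dg C X)) (hex : ∃ Y : 𝒱.Obj, IsIrregular C Y) :
    List.TFAE [
      ∀ t : C.A X, InAlbKer C t → t = 0,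
      ∀ (Y : 𝒱.Obj) (t : C.A X), InAlbKer C t → KilledBy C t Y,
      ∃ Y : 𝒱.Obj, IsIrregular C Y ∧ ∀ t : C.A X, InAlbKer C t → KilledBy C t Y] := by
  tfae_have 1 → 2 := by
    intro h Y t ht b _ _
    rw [h t ht, C.ext_zero_left]
  tfae_have 2 → 3 := by
    intro h
    obtain ⟨Y, hY⟩ := hex
    exact ⟨Y, hY, h Y⟩
  tfae_have 3 → 1 := by
    rintro ⟨Y, hY, h⟩
    refine ((Pool.Agent.Y110.BP.main H hF hcurves X hX hpg).out 0 1).mpr ?_
    intro t ht
    exact ext_eq_zero hF.bloch_srinivas hY ht.deg (h t ht) (h t ht)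
  tfae_finish

end Pool.Agent.Y111.BC
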