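import Pool.Agent.Y110.BP.Main

/-!
# External products of zero-cycles with the correspondences of a curve
-/

open CategoryTheory AlgebraicGeometry

universe u v w

namespace Pool.Agent.Y111.BC

open Pool.Agent.H914 Pool.Agent.H914.VarClass Pool.Agent.H914.VarClass.Obj Pool.Agent.W492.BB
  Pool.Agent.W550.Corr Pool.Agent.TH133 Pool.Agent.Y152.AS Pool.Agent.Y110.BP

set_option linter.unusedSectionVars false
set_option linter.unusedVariables false

variable {k : Type u} [Field k] {𝒱 : VarClass k} {C : TheoryData.{u, v, 0} 𝒱 ℚ}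
  [hC : IsChowProj C] {X Y Z W S : 𝒱.Obj}

include hC

section degree

lemma hasDegree_add {a b : C.A X} {q r : ℚ} (ha : HasDegree C a q) (hb : HasDegree C b r) :
    HasDegree C (a + b) (q + r) := by
  intro Y
  rw [map_add, map_add, map_add, map_add, (ha Y).1, (ha Y).2, (hb Y).1, (hb Y).2, add_smul]
  exact ⟨rfl, rfl⟩

lemma hasDegree_smul {a : C.A X} {q : ℚ} (c : ℚ) (ha : HasDegree C a q) :
    HasDegree C (c • a) (c * q) := by
  intro Y
  rw [map_smul, map_smul, map_smul, map_smul, (ha Y).1, (ha Y).2, smul_smul]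
  exact ⟨rfl, rfl⟩

lemma hasDegree_sub {a b : C.A X} {q r : ℚ} (ha : HasDegree C a q) (hb : HasDegree C b r) :
    HasDegree C (a - b) (q - r) := by
  have h := hasDegree_smul (-1) hb
  rw [neg_one_smul, neg_one_mul] at h
  rw [sub_eq_add_neg, sub_eq_add_neg]
  exact hasDegree_add ha h

/-- Push-forwards preserve degrees. -/
lemma hasDegree_push (f : X ⟶ Y) {a : C.A X} {q : ℚ} (ha : HasDegree C a q) :
    HasDegree C (C.push f a) q := by
  intro Z
  refine ⟨?_, ?_⟩
  · rw [C.base_fst, ← C.push_comp, prodMap_snd, Category.comp_id]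
    exact (ha Z).1
  · rw [C.base_snd, ← C.push_comp, prodMap_fst, Category.comp_id]
    exact (ha Z).2

/-- The degree of an external product. -/
lemma hasDegree_ext {a : C.A X} {b : C.A Y} {q r : ℚ} (ha : HasDegree C a q)
    (hb : HasDegree C b r) : HasDegree C (C.push (snd X Y) (C.ext a b)) (q * r) := by
  have h : C.push (snd X Y) (C.ext a b) = q • b := by
    rw [TheoryData.ext, C.proj_right, (ha Y).1, smul_mul_assoc, one_mul]
  rw [h]
  exact hasDegree_smul q hb

end degree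

/-- Base change along `X × Y ⟶ Y`. -/
lemma push_snd_pull_u13 (z : C.A (W.prod Y)) :
    C.push (snd W (X.prod Y)) (C.pull (u13 W X Y) z) =
      C.pull (snd X Y) (C.push (snd W Y) z) := by
  rw [C.base_snd]
  have e1 : Obj.lift (snd W (X.prod Y) ≫ fst X Y) (u13 W X Y) ≫
      Obj.lift (snd X (W.prod Y) ≫ fst W Y)
        (Obj.lift (fst X (W.prod Y)) (snd X (W.prod Y) ≫ snd W Y)) = 𝟙 _ := by
    apply prod_ext
    · simp [comp_lift]
    · apply prod_ext <;> simp [comp_lift]
  have e2 : Obj.lift (snd X (W.prod Y) ≫ fst W Y)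
        (Obj.lift (fst X (W.prod Y)) (snd X (W.prod Y) ≫ snd W Y)) ≫
      Obj.lift (snd W (X.prod Y) ≫ fst X Y) (u13 W X Y) = 𝟙 _ := by
    apply prod_ext
    · simp [comp_lift]
    · apply prod_ext <;> simp [comp_lift]
  rw [push_model C _ _ e1 e2 (prodMap (𝟙 X) (snd W Y)), ← C.pull_comp, lift_snd]
  have e3 : Obj.lift (snd W (X.prod Y) ≫ fst X Y) (u13 W X Y) ≫ prodMap (𝟙 X) (snd W Y) =
      snd W (X.prod Y) := by
    apply prod_ext <;> simp
  rw [e3]

/-- The product of the cycle `t` on `X` with the correspondence `π` from `W` to `Y`. -/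
noncomputable def pr (t : C.A X) (π : C.A (W.prod Y)) : C.A (W.prod (X.prod Y)) :=
  C.pull (snd W (X.prod Y)) (C.pull (fst X Y) t) * C.pull (u13 W X Y) π

lemma act_pr (t : C.A X) (π : C.A (W.prod Y)) (c : C.A W) :
    C.act (pr t π) c = C.ext t (C.act π c) := by
  rw [TheoryData.act_apply, pr, mul_assoc, C.proj_left]
  have e1 : C.pull (fst W (X.prod Y)) c = C.pull (u13 W X Y) (C.pull (fst W Y) c) := by
    rw [← C.pull_comp, u13_fst]
  rw [e1, ← map_mul, push_snd_pull_u13]
  rfl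

lemma pr_mem {i j : ℤ} {t : C.A X} {π : C.A (W.prod Y)} (ht : t ∈ C.gr X i)
    (hπ : π ∈ C.gr (W.prod Y) j) : pr t π ∈ C.gr (W.prod (X.prod Y)) (i + j) :=
  C.mul_mem (C.pull_mem _ (C.pull_mem _ ht)) (C.pull_mem _ hπ)

/-- The contraction with `π`. -/
noncomputable def ctr (π : C.A (W.prod Y)) : C.A (W.prod (X.prod Y)) →ₗ[ℚ] C.A X :=
  C.push (snd W (X.prod Y) ≫ fst X Y) ∘ₗ LinearMap.mulRight ℚ (C.pull (u13 W X Y) π)

lemma ctr_apply (π : C.A (W.prod Y)) (z : C.A (W.prod (X.prod Y))) :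
    ctr π z = C.push (snd W (X.prod Y) ≫ fst X Y) (z * C.pull (u13 W X Y) π) := rfl

/-- The contraction of the product. -/
lemma ctr_pr (t : C.A X) (π : C.A (W.prod Y)) {d : ℚ} (hd : HasDegree C (π * π) d) :
    ctr π (pr t π) = d • t := by
  rw [ctr_apply, pr, mul_assoc, ← map_mul, C.push_comp, C.proj_left, push_snd_pull_u13,
    C.proj_left, ((hasDegree_push (snd W Y) hd) X).2, mul_smul_comm, mul_one]

/-- Zero-dimensional varieties: `A(W × Y)` comes from `Y`. -/
lemma zero_dim (hW : W.dim = 0) : ∃ c : ℚ, ∀ (Y : 𝒱.Obj) (a : C.A (W.prod Y)),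
    a = c • C.pull (snd W Y) (C.push (snd W Y) a) := by
  have h1 : dg C W ∈ C.gr (W.prod W) 0 := by
    have := dg_mem C W
    rwa [hW] at this
  obtain ⟨c, hc⟩ := hC.gr_zero (W.prod W) (dg C W) h1
  refine ⟨c, fun Y a => ?_⟩
  have h2 : C.comp (dg C W) a = a := dg_comp C a
  have h3 : (1 : C.A (W.prod W)) = C.ext 1 1 := by
    rw [TheoryData.ext, map_one, map_one, one_mul]
  have h4 : C.comp (C.ext (1 : C.A W) (1 : C.A W)) a = C.pull (snd W Y) (C.push (snd W Y) a) := by
    rw [comp_eq_extR, TheoryData.extR, ← h3, map_one, mul_one]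
    exact (C.base_snd (snd W Y) W a).symm
  rw [hc, h3] at h2
  have h5 : C.comp (c • C.ext (1 : C.A W) (1 : C.A W)) a =
      c • C.comp (C.ext (1 : C.A W) (1 : C.A W)) a := by
    simp only [← compL_apply, map_smul, LinearMap.smul_apply]
  rw [h5, h4] at h2
  exact h2.symm

end Pool.Agent.Y111.BC
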