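import Pool.Agent.Y111.BC.Main

/-!
# Products supported on curves
-/

open CategoryTheory AlgebraicGeometry

universe u v w

namespace Pool.Agent.Y111.BC

open Pool.Agent.H914 Pool.Agent.H914.VarClass Pool.Agent.H914.VarClass.Obj Pool.Agent.W492.BB
  Pool.Agent.W550.Corr Pool.Agent.TH133 Pool.Agent.Y152.AS Pool.Agent.Y110.BP

set_option linter.unusedSectionVars false
set_option linter.unusedVariables false

variable {k : Type u} [Field k] {𝒱 : VarClass k} {C : TheoryData.{u, v, 0} 𝒱 ℚ}
  [hC : IsChowProj C] {X Y Z W S T U : 𝒱.Obj}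

include hC

lemma act_push_left (g : W ⟶ X) (γ : C.A (W.prod Y)) (z : C.A X) :
    C.act (C.push (prodMap g (𝟙 Y)) γ) z = C.act γ (C.pull g z) := by
  rw [TheoryData.act_apply, TheoryData.act_apply, ← C.proj_right, ← C.push_comp, ← C.pull_comp,
    prodMap_fst, prodMap_snd, Category.comp_id, C.pull_comp]

lemma act_push_right (f : U ⟶ Y) (δ : C.A (X.prod U)) (z : C.A X) :
    C.act (C.push (prodMap (𝟙 X) f) δ) z = C.push f (C.act δ z) := by
  rw [TheoryData.act_apply, TheoryData.act_apply, ← C.proj_right, ← C.push_comp, ← C.pull_comp,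
    prodMap_fst, prodMap_snd, Category.comp_id, C.push_comp]

/-- Elements of the Albanese kernel have degree zero. -/
lemma hasDegree_of_inAlbKer (hT : T.dim = 1) {t : C.A X} (ht : InAlbKer C t) :
    HasDegree C t 0 := by
  obtain ⟨p, hp, hp1⟩ := hC.toIsChow.exists_deg_one T
  have hpd : HasDegree C p 1 := by
    intro Z
    rw [one_smul]
    exact ⟨hp1.2 Z, hp1.1 Z⟩
  have hp' : C.Deg 1 p := by
    rw [hT] at hp
    exact_mod_cast hp
  obtain ⟨q, hq⟩ := exists_hasDegree (C := C) ht.deg
  have h1 : C.act (C.ext (1 : C.A X) p) t = q • p := act_ext' (by rw [one_mul]; exact hq)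
  have h2 : C.act (C.ext (1 : C.A X) p) t = 0 := by
    refine ht.act_eq_zero T _ ?_
    have h3 := ext_mem' (C := C) (C.one_mem X) hp'
    rw [zero_add] at h3
    exact h3
  have h4 : HasDegree C (q • p) q := by
    have := hasDegree_smul q hpd
    rwa [mul_one] at this
  rw [← h1, h2] at h4
  intro Z
  have h5 := h4 Z
  rw [(hq Z).1, (hq Z).2]
  rw [map_zero, map_zero] at h5
  rw [zero_smul]
  exact ⟨h5.1.symm, h5.1.symm⟩

/-- Correspondences into curves kill the products of elements of the Albanese kernel with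
zero-cycles. -/
lemma act_ext_eq_zero (hT : T.dim = 1) (hU : U.dim ≤ 1) {δ : C.A ((X.prod Y).prod U)}
    (hδ : C.Deg U.dim δ) {t : C.A X} (ht : InAlbKer C t) {b : C.A Y} (hb : C.Deg Y.dim b) :
    C.act δ (C.ext t b) = 0 := by
  set κ : C.A (X.prod (Y.prod X)) := pr b (dg C X) with hκ
  have h1 : C.act κ t = C.ext b t := by rw [hκ, act_pr, act_dg]
  set κ' : C.A (X.prod (X.prod Y)) := C.comp κ (C.graph (sw Y X)) with hκ'
  have h2 : C.act κ' t = C.ext t b := by
    rw [hκ', C.act_comp, h1, C.act_graph, push_sw_ext]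
  have h3 : κ' ∈ C.gr (X.prod (X.prod Y)) (X.dim + ((Y.dim : ℤ) + 0)) := by
    have a1 : κ ∈ C.gr (X.prod (Y.prod X)) (X.dim + Y.dim) := by
      have := pr_mem hb (dg_mem C X)
      rwa [add_comm] at this
    have a2 : C.graph (sw Y X) ∈ C.gr ((Y.prod X).prod (X.prod Y)) ((Y.prod X).dim + 0) := by
      have := graph_mem (C := C) (sw Y X)
      refine deg_cast ?_ this
      rw [dim_prod, dim_prod]
      push_cast
      ring
    exact comp_mem C a1 a2
  have h4 : δ ∈ C.gr ((X.prod Y).prod U) ((X.prod Y).dim + ((U.dim : ℤ) - X.dim - Y.dim)) := by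
    refine deg_cast ?_ hδ
    rw [dim_prod]
    push_cast
    ring
  have h5 : C.comp κ' δ ∈ C.gr (X.prod U) U.dim :=
    deg_cast (by ring) (comp_mem C h3 h4)
  rw [← h2, ← C.act_comp]
  rcases Nat.lt_or_ge U.dim 1 with h6 | h6
  · have h7 : U.dim = 0 := by omega
    rw [h7] at h5
    obtain ⟨c, hc⟩ := hC.gr_zero (X.prod U) (C.comp κ' δ) (by exact_mod_cast h5)
    have h8 := hasDegree_of_inAlbKer hT ht
    rw [hc, TheoryData.act_apply, smul_mul_assoc, one_mul, map_smul, (h8 U).1, zero_smul,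
      smul_zero]
  · have h7 : U.dim = 1 := by omega
    rw [h7] at h5
    exact ht.act_eq_zero U _ (by exact_mod_cast h5)

section weil

variable {K : Type w} [Field K] {H : WeilTheoryData.{u, v, w} C K} [hH : IsWeilProj H]

include hH

/-- If the products are supported on curves, then they are zero. -/
theorem killedBy_of_onCurve (hF : ClassicalFacts H) (hX : X.dim = 2)
    (hpg : IsHomDegenerate H (dg C X)) (hT : T.dim = 1) {m : ℕ} {U : Fin m → 𝒱.Obj}
    {f : ∀ j, U j ⟶ X.prod Y} (hU : ∀ j, (U j).dim ≤ 1)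
    (hs : ∀ (t : C.A X) (b : C.A Y), InAlbKer C t → C.Deg Y.dim b → DegreeIs C b 0 →
      C.ext t b ∈ zeroSupp C U f) {t : C.A X} (ht : InAlbKer C t) : KilledBy C t Y := by
  intro b hb hb0'
  have hb0 := hasDegree_of (C := C) hb hb0'
  -- the correspondence onto the Albanese kernel
  obtain ⟨W0, hW0, hcl⟩ := hpg
  have hdg : dg C X ∈ C.gr (X.prod X) 2 := by have := dg_mem C X; rwa [hX] at this
  have hW0m : W0 ∈ degenerate C X X := hW0.mem
  have hW0d : W0 ∈ C.gr (X.prod X) 2 := degenerate_le (H := H) hX hW0m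
  set N : C.A (X.prod X) := dg C X - W0 with hNdef
  have hN : N ∈ C.gr (X.prod X) 2 := Submodule.sub_mem _ hdg hW0d
  have hNcl : H.cl N = 0 := by rw [hNdef, map_sub, hcl, sub_self]
  have hNact : ∀ β : C.A X, InAlbKer C β → C.act N β = β := by
    intro β hβ
    rw [hNdef, C.act_sub, act_dg, degenerate_act hX hW0m (inAlbKer_iff.1 hβ), sub_zero]
  set B : C.A (X.prod X) := C.comp N N with hBdef
  have hB : B ∈ C.gr (X.prod X) 2 := comp_mem2 (H := H) hX hN hN
  have hBimg : ∀ x : C.A X, C.Deg X.dim x → InAlbKer C (C.act B x) := by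
    intro x hx
    rw [hBdef, C.act_comp]
    exact inAlbKer_comp hF hX hN hNcl hN hNcl hx
  have hBact : ∀ β : C.A X, InAlbKer C β → C.act B β = β := by
    intro β hβ
    rw [hBdef, C.act_comp, hNact β hβ, hNact β hβ]
  -- the correspondence onto the zero-cycles of degree zero
  obtain ⟨p, hp, hp1⟩ := hC.toIsChow.exists_deg_one Y
  have hpd : HasDegree C p 1 := by
    intro Z
    rw [one_smul]
    exact ⟨hp1.2 Z, hp1.1 Z⟩
  set P : C.A (Y.prod Y) := red (dg C Y) p with hPdef
  have hPact : ∀ {c : C.A Y} {q : ℚ}, HasDegree C c q → C.act P c = c - q • p := by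
    intro c q hq
    rw [hPdef, act_red hq, act_dg]
  have hP : P ∈ C.gr (Y.prod Y) Y.dim := by
    rw [hPdef, red, act_dg]
    have h3 := ext_mem' (C := C) (C.one_mem Y) hp
    rw [zero_add] at h3
    exact Submodule.sub_mem _ (dg_mem C Y) h3
  -- their product
  have hΓ : C.Deg (X.prod Y).dim (tens C B P) := by
    have h1 := tens_mem C hB hP
    change _ ∈ C.gr _ _
    refine deg_cast ?_ h1
    rw [dim_prod, hX]
    push_cast
    ring
  have hact : ∀ (x : C.A X) (y : C.A Y), C.act (tens C B P) (C.ext x y) =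
      C.ext (C.act B x) (C.act P y) := fun x y =>
    act_tens_ext C B P (fun f c => ch_comm C _ _) x y
  have hsupp : ∀ z, C.Deg (X.prod Y).dim z → C.act (tens C B P) z ∈ zeroSupp C U f := by
    intro z hz
    have h2 := hF.products X Y z hz
    clear hz
    induction h2 using Submodule.span_induction with
    | mem w hw =>
      obtain ⟨x, y, hx, hy, rfl⟩ := hw
      obtain ⟨q, hq⟩ := exists_hasDegree (C := C) hy
      rw [hact, hPact hq]
      refine hs _ _ (hBimg x hx) (Submodule.sub_mem _ hy (Submodule.smul_mem _ _ hp))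
        (degreeIs_of ?_)
      have := hasDegree_sub hq (hasDegree_smul q hpd)
      rwa [mul_one, sub_self] at this
    | zero => rw [C.act_map_zero]; exact Submodule.zero_mem _
    | add a b ha hb iha ihb => rw [act_map_add]; exact Submodule.add_mem _ iha ihb
    | smul q a ha iha => rw [act_map_smul]; exact Submodule.smul_mem _ _ iha
  have htb : C.act (tens C B P) (C.ext t b) = C.ext t b := by
    rw [hact, hBact t ht, hPact hb0, zero_smul, sub_zero]
  have htbd : C.ext t b ∈ C.gr (X.prod Y) (X.prod Y).dim := by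
    have h1 := ext_mem' (C := C) ht.deg hb
    refine deg_cast ?_ h1
    rw [dim_prod]
    push_cast
    ring
  obtain ⟨Γ₁, h1, Γ₂, h2, h3⟩ :=
    Submodule.mem_sup.1 (hF.bloch_srinivas (X.prod Y) (X.prod Y) _ m U f hΓ hsupp)
  rw [← htb, ← h3, C.act_add]
  have h4 : C.act Γ₁ (C.ext t b) = 0 := by
    clear h3 h2
    rw [overDivisors] at h1
    induction h1 using Submodule.span_induction with
    | mem z hz =>
      obtain ⟨W, g, γ, hW, -, rfl⟩ := hz
      change C.act (C.push (prodMap g (𝟙 (X.prod Y))) γ) _ = 0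
      rw [act_push_left, IsChowProj.gr_top (C := C) W _ _ (C.pull_mem g htbd) (by
        rw [← hW]; push_cast; linarith), C.act_map_zero]
    | zero => exact C.act_zero _
    | add a b _ _ ha hb => rw [C.act_add, ha, hb, add_zero]
    | smul q a _ ha => rw [act_smul, ha, smul_zero]
  have h5 : C.act Γ₂ (C.ext t b) = 0 := by
    clear h3 h1
    rw [overFamily] at h2
    induction h2 using Submodule.span_induction with
    | mem z hz =>
      obtain ⟨j, δ, hδ, rfl⟩ := hz
      change C.act (C.push (prodMap (𝟙 (X.prod Y)) (f j)) δ) _ = 0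
      rw [act_push_right, act_ext_eq_zero hT (hU j) hδ ht hb, map_zero]
    | zero => exact C.act_zero _
    | add a b _ _ ha hb => rw [C.act_add, ha, hb, add_zero]
    | smul q a _ ha => rw [act_smul, ha, smul_zero]
  rw [h4, h5, add_zero]

end weil

/-- The criterion, with supports. -/
theorem main' {K : Type w} [Field K] (H : WeilTheoryData.{u, v, w} C K) [IsWeilProj H]
    (hF : ClassicalFacts H) (hcurves : CurvesGenerate C) (X : 𝒱.Obj) (hX : X.dim = 2)
    (hpg : IsHomDegenerate H (dg C X)) (hex : ∃ Y : 𝒱.Obj, IsIrregular C Y) :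
    List.TFAE [
      ∀ t : C.A X, InAlbKer C t → t = 0,
      ∀ (Y : 𝒱.Obj) (t : C.A X), InAlbKer C t → KilledBy C t Y,
      ∃ Y : 𝒱.Obj, IsIrregular C Y ∧ ∀ t : C.A X, InAlbKer C t → KilledBy C t Y,
      ∃ Y : 𝒱.Obj, IsIrregular C Y ∧ ProductsOnCurves C X Y] := by
  have h := main H hF hcurves X hX hpg hex
  tfae_have 1 → 2 := (h.out 0 1).mp
  tfae_have 2 → 3 := (h.out 1 2).mp
  tfae_have 3 → 1 := (h.out 2 0).mp
  tfae_have 3 → 4 := by
    rintro ⟨Y, hY, h3⟩
    refine ⟨Y, hY, 0, Fin.elim0, fun j => j.elim0, fun j => j.elim0, ?_⟩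
    intro t b ht hb hb0
    rw [h3 t ht b hb hb0]
    exact Submodule.zero_mem _
  tfae_have 4 → 3 := by
    rintro ⟨Y, hY, m, U, f, hU, hs⟩
    refine ⟨Y, hY, fun t ht => ?_⟩
    obtain ⟨T, -, -, -, hT, -⟩ := hY
    exact killedBy_of_onCurve hF hX hpg hT hU hs ht
  tfae_finish

end Pool.Agent.Y111.BC
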